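import Pool.Agent.Helper12.RQ.Polar

/-! # Packet E2U of MP_a2585e_an -/

set_option autoImplicit false

open MeasureTheory Set Filter Topology Metric

open scoped ENNReal NNReal ContDiff

namespace Pool.Agent.Helper27.RQ

open Pool.Agent.Helper12.RQ

section

variable {n : ℕ} {p α : ℝ}

theorem num_facts (hn : 2 ≤ n) (hp : (n : ℝ) - 1 < p) (hpn : p < n) (hα : n / (n - p) < α) :
    (2 : ℝ) ≤ n ∧ 1 < p ∧ 0 < (n : ℝ) - p ∧ 1 < α ∧ 0 < bexp n p α ∧
      bexp n p α ≤ (n - p) / (p - 1) ∧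
      bexp n p α * (p - 1 + 1 / α) = (n - p) - n / α := by
  have h2 : (2 : ℝ) ≤ n := by exact_mod_cast hn
  have h3 : 1 < p := by linarith
  have h4 : 0 < (n : ℝ) - p := by linarith
  have h5 : (n : ℝ) < α * (n - p) := (div_lt_iff₀ h4).1 hα
  have h6 : 1 < α := by
    refine lt_trans ?_ hα
    rw [lt_div_iff₀ h4]
    linarith
  have h7 : 0 < α * (p - 1) + 1 := by
    have : 0 < α * (p - 1) := mul_pos (by linarith) (by linarith)
    linarith
  refine ⟨h2, h3, h4, h6, ?_, ?_, ?_⟩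
  · exact div_pos (by linarith) h7
  · unfold bexp
    rw [div_le_div_iff₀ h7 (by linarith)]
    nlinarith
  · unfold bexp
    have h8 : α ≠ 0 := by linarith
    field_simp

theorem frac_bound {b : ℝ} (hb : 0 < b) :
    0 < b / (1 - (4 : ℝ) ^ (-b)) ∧ b / (1 - (4 : ℝ) ^ (-b)) ≤ 1 + b := by
  have hlog : 1 ≤ Real.log 4 := by
    have h : Real.exp 1 ≤ 4 := by linarith [Real.exp_one_lt_d9]
    rw [← Real.log_exp 1]
    exact Real.log_le_log (Real.exp_pos 1) h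
  have h1 : (4 : ℝ) ^ (-b) * (1 + b * Real.log 4) ≤ 1 := by
    rw [Real.rpow_def_of_pos (by norm_num)]
    have h2 : 1 + b * Real.log 4 ≤ Real.exp (b * Real.log 4) := by
      linarith [Real.add_one_le_exp (b * Real.log 4)]
    calc Real.exp (Real.log 4 * -b) * (1 + b * Real.log 4)
        ≤ Real.exp (Real.log 4 * -b) * Real.exp (b * Real.log 4) := by gcongr
      _ = 1 := by
        rw [← Real.exp_add]
        simp [mul_comm]
  have h3 : 0 < (4 : ℝ) ^ (-b) := Real.rpow_pos_of_pos (by norm_num) _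
  have h4 : (4 : ℝ) ^ (-b) * (1 + b) ≤ 1 := by
    refine le_trans ?_ h1
    have : b ≤ b * Real.log 4 := by nlinarith
    gcongr
  have h5 : (4 : ℝ) ^ (-b) < 1 := by nlinarith
  refine ⟨div_pos hb (by linarith), ?_⟩
  rw [div_le_iff₀ (by linarith)]
  nlinarith

theorem om_rpow_le {a x : ℝ} (ha : 0 < a) (hx0 : 0 ≤ x) (hx1 : x ≤ 1) : a ^ x ≤ max 1 a := by
  rcases le_total a 1 with h | h
  · exact (Real.rpow_le_one ha.le h hx0).trans (le_max_left _ _)
  · refine (Real.rpow_le_rpow_of_exponent_le h hx1).trans ?_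
    rw [Real.rpow_one]
    exact le_max_right _ _

theorem bdd (hn : 2 ≤ n) (hp : (n : ℝ) - 1 < p) (hpn : p < n) (hk : 0 < kap n p)
    (ho : 0 < om n) : BddAbove (range fun α : {α : ℝ // n / (n - p) < α} => C2a n p α) := by
  refine ⟨(max 1 (om n) / kap n p * (1 + (n - p) / (p - 1)) ^ p) ^ (1 / ((n : ℝ) - p)), ?_⟩
  rintro _ ⟨⟨α, hα⟩, rfl⟩
  obtain ⟨h2, h3, h4, h6, hb, hb', _⟩ := num_facts hn hp hpn hα
  obtain ⟨hf, hf'⟩ := frac_bound hb
  have hq : 0 ≤ ((n : ℝ) - p) / (p - 1) := div_nonneg h4.le (by linarith)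
  have ha1 : 1 / α ≤ 1 := by
    rw [div_le_one (by linarith)]
    exact h6.le
  have ha0 : 0 < 1 / α := by positivity
  have e1 : om n ^ (1 - 1 / α) ≤ max 1 (om n) := om_rpow_le ho (by linarith) (by linarith)
  have e2 : (bexp n p α / (1 - 4 ^ (-bexp n p α))) ^ (p - 1 + 1 / α) ≤
      (1 + (n - p) / (p - 1)) ^ p := by
    calc (bexp n p α / (1 - 4 ^ (-bexp n p α))) ^ (p - 1 + 1 / α)
        ≤ (1 + (n - p) / (p - 1)) ^ (p - 1 + 1 / α) :=
          Real.rpow_le_rpow hf.le (by linarith) (by linarith)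
      _ ≤ (1 + (n - p) / (p - 1)) ^ p :=
          Real.rpow_le_rpow_of_exponent_le (by linarith) (by linarith)
  show C2a n p α ≤ _
  unfold C2a
  have h8 : 0 ≤ om n ^ (1 - 1 / α) := (Real.rpow_pos_of_pos ho _).le
  have h9 : 0 ≤ (bexp n p α / (1 - 4 ^ (-bexp n p α))) ^ (p - 1 + 1 / α) :=
    (Real.rpow_pos_of_pos hf _).le
  refine Real.rpow_le_rpow (mul_nonneg (div_nonneg h8 hk.le) h9) ?_ (by positivity)
  gcongr

theorem C2a_pos (hα : 0 < bexp n p α) (hk : 0 < kap n p) (ho : 0 < om n) : 0 < C2a n p α := by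
  obtain ⟨hf, _⟩ := frac_bound hα
  unfold C2a
  have h8 : 0 < om n ^ (1 - 1 / α) := Real.rpow_pos_of_pos ho _
  have h9 : 0 < (bexp n p α / (1 - 4 ^ (-bexp n p α))) ^ (p - 1 + 1 / α) :=
    Real.rpow_pos_of_pos hf _
  exact Real.rpow_pos_of_pos (mul_pos (div_pos h8 hk) h9) _

theorem int_val {b r : ℝ} (hb : 0 < b) (hr : 0 < r) :
    ∫ s in r..(4 * r), s ^ (-b - 1) = r ^ (-b) * ((1 - 4 ^ (-b)) / b) := by
  rw [integral_rpow (Or.inr ⟨by linarith, fun h => ?_⟩)]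
  · have e : -b - 1 + 1 = -b := by ring
    rw [e, Real.mul_rpow (by norm_num) hr.le]
    field_simp
    ring
  · rw [Set.uIcc_of_le (by linarith)] at h
    linarith [h.1]

/-- the real number identity behind (E2) -/
theorem real_id {r : ℝ} (hn : 2 ≤ n) (hp : (n : ℝ) - 1 < p) (hpn : p < n)
    (hα : n / (n - p) < α) (hr : 0 < r) (hk : 0 < kap n p) (ho : 0 < om n) :
    (om n ^ (1 - 1 / α) * (∫ s in r..(4 * r), s ^ (-bexp n p α - 1)) ^ (-(p - 1 + 1 / α)) /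
      kap n p) ^ (1 / ((n : ℝ) - p)) = C2a n p α * r ^ (1 - n / (α * (n - p))) := by
  obtain ⟨h2, h3, h4, h6, hb, hb', hbe⟩ := num_facts hn hp hpn hα
  obtain ⟨hf, hf'⟩ := frac_bound hb
  have h8 : 0 < om n ^ (1 - 1 / α) := Real.rpow_pos_of_pos ho _
  have h9 : 0 < (bexp n p α / (1 - 4 ^ (-bexp n p α))) ^ (p - 1 + 1 / α) :=
    Real.rpow_pos_of_pos hf _
  rw [int_val hb hr]
  have e1 : (r ^ (-bexp n p α) * ((1 - 4 ^ (-bexp n p α)) / bexp n p α)) ^ (-(p - 1 + 1 / α)) =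
      r ^ ((n : ℝ) - p - n / α) * (bexp n p α / (1 - 4 ^ (-bexp n p α))) ^ (p - 1 + 1 / α) := by
    have h10 : (1 - 4 ^ (-bexp n p α)) / bexp n p α =
        (bexp n p α / (1 - 4 ^ (-bexp n p α)))⁻¹ := (inv_div _ _).symm
    rw [Real.mul_rpow (Real.rpow_pos_of_pos hr _).le (by rw [h10]; exact (inv_pos.2 hf).le), h10,
      ← Real.rpow_mul hr.le, Real.inv_rpow hf.le, Real.rpow_neg hf.le, inv_inv]
    congr 2
    rw [← hbe]
    ring
  have hrp : 0 < r ^ ((n : ℝ) - p - n / α) := Real.rpow_pos_of_pos hr _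
  rw [e1]
  have e2 : om n ^ (1 - 1 / α) * (r ^ ((n : ℝ) - p - n / α) *
      (bexp n p α / (1 - 4 ^ (-bexp n p α))) ^ (p - 1 + 1 / α)) / kap n p =
      (om n ^ (1 - 1 / α) / kap n p *
        (bexp n p α / (1 - 4 ^ (-bexp n p α))) ^ (p - 1 + 1 / α)) *
        r ^ ((n : ℝ) - p - n / α) := by ring
  rw [e2, Real.mul_rpow (mul_pos (div_pos h8 hk) h9).le hrp.le, ← Real.rpow_mul hr.le]
  unfold C2a
  congr 2
  have h11 : α ≠ 0 := by linarith
  have h12 : (n : ℝ) - p ≠ 0 := h4.ne'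
  field_simp

end

theorem e2u (h1 : StmtMAS) (h2 : StmtPOS) : StmtE2U := by
  intro n p hn hp hpn D hD G x₀ Q f hdata α hα x hx hxd
  obtain ⟨g2, g3, g4, g6, hb, hb', hbe⟩ := num_facts hn hp hpn hα
  have ho : 0 < om n := om_pos n (by omega)
  obtain ⟨hs0, hs1⟩ := h2 n p hn hp hpn
  have hk : 0 < kap n p := ENNReal.toReal_pos hs0.ne' hs1.ne
  have hr : 0 < ‖x - x₀‖ := norm_pos_iff.2 (sub_ne_zero.2 hx)
  set r : ℝ := ‖x - x₀‖ with hrdef
  have h4r : ENNReal.ofReal (4 * r) < bdist G x₀ := by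
    have e1 : edist x x₀ = ENNReal.ofReal r := by
      rw [edist_dist, dist_eq_norm]
    rw [e1] at hxd
    rw [ENNReal.ofReal_mul (by norm_num)]
    have e2 : ENNReal.ofReal 4 = 4 := by simp
    rw [e2]
    have h5 := ENNReal.mul_lt_of_lt_div' hxd
    exact h5
  have hball : closedBall x₀ (4 * r) ⊆ G := by
    intro y hy
    by_contra hyG
    have h5 : bdist G x₀ ≤ edist x₀ y := Metric.infEDist_le_edist_of_mem hyG
    have h6 : edist x₀ y ≤ ENNReal.ofReal (4 * r) := by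
      rw [edist_comm, edist_dist]
      exact ENNReal.ofReal_le_ofReal hy
    exact absurd (h5.trans h6) (not_le.2 h4r)
  have hA : {z | r < dist z x₀ ∧ dist z x₀ < 4 * r} ⊆ D G x₀ := by
    refine Subset.trans ?_ (hD G x₀)
    intro z hz
    show edist z x₀ < bdist G x₀
    refine lt_of_le_of_lt ?_ h4r
    rw [edist_dist]
    exact ENNReal.ofReal_le_ofReal hz.2.le
  have hmas := h1 n p hn hp hpn G x₀ Q f hdata α g6 x r (4 * r) hr (by linarith) hball le_rfl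
  have hN : nrm α Q {z | r < dist z x₀ ∧ dist z x₀ < 4 * r} ≤ nrm α Q (D G x₀) := by
    unfold nrm
    exact ENNReal.rpow_le_rpow (lintegral_mono_set hA) (by positivity)
  set c : ℝ := om n ^ (1 - 1 / α) *
    (∫ s in r..(4 * r), s ^ (-bexp n p α - 1)) ^ (-(p - 1 + 1 / α)) with hc
  have hI : 0 ≤ ∫ s in r..(4 * r), s ^ (-bexp n p α - 1) := by
    rw [int_val hb hr]
    obtain ⟨hf, _⟩ := frac_bound hb
    have h10 : (1 - 4 ^ (-bexp n p α)) / bexp n p α =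
        (bexp n p α / (1 - 4 ^ (-bexp n p α)))⁻¹ := (inv_div _ _).symm
    rw [h10]
    exact mul_nonneg (Real.rpow_pos_of_pos hr _).le (inv_pos.2 hf).le
  have hc0 : 0 ≤ c := mul_nonneg (Real.rpow_nonneg ho.le _) (Real.rpow_nonneg hI _)
  have step1 : ENNReal.ofReal ‖f x - f x₀‖ ^ ((n : ℝ) - p) ≤
      ENNReal.ofReal (c / kap n p) * nrm α Q (D G x₀) := by
    have h5 : ENNReal.ofReal (kap n p * ‖f x - f x₀‖ ^ ((n : ℝ) - p)) ≤
        ENNReal.ofReal c * nrm α Q (D G x₀) := hmas.trans (by gcongr)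
    rw [ENNReal.ofReal_rpow_of_nonneg (norm_nonneg _) g4.le]
    have e1 : ‖f x - f x₀‖ ^ ((n : ℝ) - p) = (kap n p)⁻¹ *
        (kap n p * ‖f x - f x₀‖ ^ ((n : ℝ) - p)) := by
      field_simp
    have e2 : c / kap n p = (kap n p)⁻¹ * c := by
      rw [div_eq_mul_inv, mul_comm]
    rw [e1, e2, ENNReal.ofReal_mul (inv_pos.2 hk).le, ENNReal.ofReal_mul (inv_pos.2 hk).le,
      mul_assoc]
    gcongr
  have step2 : ENNReal.ofReal ‖f x - f x₀‖ ≤
      ENNReal.ofReal ((c / kap n p) ^ (1 / ((n : ℝ) - p))) *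
        nrm α Q (D G x₀) ^ (1 / ((n : ℝ) - p)) := by
    have h5 := ENNReal.rpow_le_rpow step1 (by positivity : 0 ≤ 1 / ((n : ℝ) - p))
    rw [← ENNReal.rpow_mul, mul_one_div_cancel g4.ne', ENNReal.rpow_one,
      ENNReal.mul_rpow_of_nonneg _ _ (by positivity),
      ENNReal.ofReal_rpow_of_nonneg (div_nonneg hc0 hk.le) (by positivity)] at h5
    exact h5
  rw [hc, real_id hn hp hpn hα hr hk ho] at step2
  have hle : C2a n p α ≤ C2 n p := le_ciSup (bdd hn hp hpn hk ho) ⟨α, hα⟩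
  have hC0 : 0 < C2a n p α := C2a_pos hb hk ho
  calc ENNReal.ofReal ‖f x - f x₀‖ ≤ _ := step2
    _ = ENNReal.ofReal (C2a n p α) * nrm α Q (D G x₀) ^ (1 / ((n : ℝ) - p)) *
        ENNReal.ofReal (r ^ (1 - n / (α * (n - p)))) := by
      rw [ENNReal.ofReal_mul hC0.le]
      ring
    _ ≤ _ := by gcongr

end Pool.Agent.Helper27.RQ
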